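import Mathlib
import Pool.Agent.helper35.DR.SpecZ

/-!
# ZNA: the number of invariant characters of the inverse image of `N` in the cover
-/

set_option autoImplicit false

namespace Pool.Agent.DR

open Pool.Agent.helper58.DC Pool.Agent.DI

theorem ZNA_split {A : Type} [Group A] {n : ℕ} (x : Cv A n) :
    (⟨x.z, 1⟩ : Cv A n) * ⟨1, x.a⟩ = x := by
  refine Cv.ext ?_ ?_
  · simp [uB_one_left]
  · simp

theorem ZNA_cen {A : Type} [Group A] {n : ℕ} (z : Zn A n) (x : Cv A n) :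
    (⟨z, 1⟩ : Cv A n) * x = x * ⟨z, 1⟩ := by
  refine Cv.ext ?_ ?_
  · simp [uB_one_left, uB_one_right, mul_comm]
  · simp

/-- the cocycle of `l` -/
def ZNA_b {A : Type} [Group A] {n : ℕ} (l : Zn A n →* ℂˣ) : A → A → ℂˣ := fun a b => l (uB n a b)

theorem ZNA_coc {A : Type} [Group A] {n : ℕ} (l : Zn A n →* ℂˣ) : ZNA_b l ∈ Coc A := by
  refine ⟨fun a b c => ?_, fun a => ?_, fun a => ?_⟩
  · simp only [ZNA_b]
    rw [← map_mul, uB_mul, map_mul]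
  · simp [ZNA_b, uB_one_left]
  · simp [ZNA_b, uB_one_right]

theorem ZNA_sum {A : Type} [Group A] [Finite A] {n : ℕ} [Finite (Zn A n)] (N : Subgroup A)
    (g : A → ℂ) :
    ∑ᶠ x ∈ ((N.comap (prC A n) : Subgroup (Cv A n)) : Set (Cv A n)), g x.a =
      Nat.card (Zn A n) * ∑ᶠ a ∈ (N : Set A), g a := by
  classical
  have : Fintype A := Fintype.ofFinite A
  have : Fintype (Zn A n) := Fintype.ofFinite _
  let e : Cv A n ≃ Zn A n × A := ⟨fun x => (x.z, x.a), fun p => ⟨p.1, p.2⟩, fun _ => rfl, fun _ => rfl⟩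
  have : Fintype (Cv A n) := Fintype.ofEquiv _ e.symm
  rw [finsum_mem_def, finsum_mem_def, finsum_eq_sum_of_fintype, finsum_eq_sum_of_fintype,
    Fintype.sum_equiv e _ (fun p => Set.indicator (N : Set A) g p.2) (fun x => ?_),
    Fintype.sum_prod_type]
  · simp only [Finset.sum_const, Finset.card_univ, nsmul_eq_mul, Nat.card_eq_fintype_card]
  · by_cases hx : x.a ∈ N
    · rw [Set.indicator_of_mem (show x ∈ ((N.comap (prC A n) : Subgroup (Cv A n)) : Set (Cv A n))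
        from hx), Set.indicator_of_mem (show (e x).2 ∈ (N : Set A) from hx)]
      rfl
    · rw [Set.indicator_of_notMem (show x ∉ ((N.comap (prC A n) : Subgroup (Cv A n)) :
        Set (Cv A n)) from hx), Set.indicator_of_notMem (show (e x).2 ∉ (N : Set A) from hx)]

theorem ZNA_rep (hKSC : KSC_stmt) {A : Type} [Group A] [Finite A] {n : ℕ} [Finite (Zn A n)]
    [Finite (Cv A n)] (N : Subgroup A)
    (hcard : Nat.card (N.comap (prC A n)) = Nat.card N * Nat.card (Zn A n)) (σ : Cv A n → ℂ)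
    (k : ℕ) (h : PIrr (N.comap (prC A n)) 1 σ k) :
    ∃ l : Zn A n →* ℂˣ, (∀ x : Cv A n, σ x = (l x.z : ℂ) * σ ⟨1, x.a⟩) ∧
      PIrr N (ZNA_b l) (fun a => σ ⟨1, a⟩) k := by
  classical
  obtain ⟨V, _, _, _, S, hS1, hSm, hk, htr⟩ := h.rep
  have hSm' : ∀ x y : Cv A n, x.a ∈ N → y.a ∈ N → S x * S y = S (x * y) := by
    intro x y hx hy
    have := hSm x hx y hy
    simpa using this
  have hone : ∀ x y : Cv A n, (((1 : Cv A n → Cv A n → ℂˣ) x y : ℂˣ) : ℂ) = 1 := fun x y => by simp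
  have hnorm := h.norm
  have hk0 : (k : ℂ) ≠ 0 := by
    intro h0
    have hk00 : k = 0 := by exact_mod_cast h0
    rw [hk00, Module.finrank_zero_iff] at hk
    have htr0 : ∀ x ∈ N.comap (prC A n), σ x = 0 := by
      intro x hx
      rw [htr x hx]
      have : S x = 0 := Subsingleton.elim _ _
      rw [this, map_zero]
    have h1 : ∑ᶠ x ∈ ((N.comap (prC A n) : Subgroup (Cv A n)) : Set (Cv A n)),
        σ x * σ x⁻¹ * (((1 : Cv A n → Cv A n → ℂˣ) x x⁻¹ : ℂˣ) : ℂ)⁻¹ = 0 := by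
      rw [finsum_mem_congr rfl (g := fun _ => (0 : ℂ)) (fun x hx => by
        rw [htr0 x hx, zero_mul, zero_mul])]
      simp
    rw [h1] at hnorm
    have h2 : 0 < Nat.card (N.comap (prC A n)) := Nat.card_pos
    have h3 : Nat.card (N.comap (prC A n)) = 0 := by exact_mod_cast hnorm.symm
    omega
  have hc : ∀ z : Zn A n, ∃ c : ℂ, S ⟨z, 1⟩ = c • (1 : Module.End ℂ V) := by
    intro z
    refine hKSC (Cv A n) (N.comap (prC A n)) 1 (one_mem _) V S hS1 hSm ?_ (S ⟨z, 1⟩) ?_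
    · rw [← hnorm]
      refine finsum_mem_congr rfl fun x hx => ?_
      rw [htr x hx, htr x⁻¹ ((N.comap (prC A n)).inv_mem hx)]
    · intro x hx
      rw [hSm' _ _ N.one_mem hx, hSm' _ _ hx N.one_mem, ZNA_cen]
  choose c hc using hc
  have hinj : ∀ u v : ℂ, u • (1 : Module.End ℂ V) = v • (1 : Module.End ℂ V) → u = v := by
    intro u v huv
    have h1 := congrArg (LinearMap.trace ℂ V) huv
    rw [map_smul, map_smul, LinearMap.trace_one, hk, smul_eq_mul, smul_eq_mul] at h1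
    exact mul_right_cancel₀ hk0 h1
  have hc1 : c 1 = 1 := by
    refine hinj _ _ ?_
    rw [← hc, one_smul]
    exact hS1
  have hcm : ∀ z w, c (z * w) = c z * c w := by
    intro z w
    refine hinj _ _ ?_
    rw [← hc]
    have h1 : (⟨z * w, 1⟩ : Cv A n) = ⟨z, 1⟩ * ⟨w, 1⟩ := by
      refine Cv.ext ?_ ?_
      · simp [uB_one_left]
      · simp
    rw [h1, ← hSm' _ _ N.one_mem N.one_mem, hc, hc, smul_mul_smul_comm, one_mul]
  let cc : Zn A n →* ℂ := ⟨⟨c, hc1⟩, hcm⟩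
  have hl : ∀ z, ((cc.toHomUnits z : ℂˣ) : ℂ) = c z := fun z => rfl
  have hSx : ∀ x : Cv A n, x.a ∈ N → S x = c x.z • S ⟨1, x.a⟩ := by
    intro x hx
    have h0 := hSm' ⟨x.z, 1⟩ ⟨1, x.a⟩ N.one_mem hx
    rw [ZNA_split x] at h0
    rw [← h0, hc, smul_mul_assoc, one_mul]
  have hσ : ∀ x : Cv A n, σ x = (cc.toHomUnits x.z : ℂ) * σ ⟨1, x.a⟩ := by
    intro x
    by_cases hx : x.a ∈ N
    · rw [htr x hx, htr ⟨1, x.a⟩ hx, hSx x hx, map_smul, hl, smul_eq_mul]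
    · rw [h.off x hx, h.off ⟨1, x.a⟩ hx, mul_zero]
  refine ⟨cc.toHomUnits, hσ, ?_, ?_, ?_⟩
  · intro a ha
    exact h.off ⟨1, a⟩ ha
  · refine ⟨V, inferInstance, inferInstance, inferInstance, fun a => S ⟨1, a⟩, hS1, ?_, hk,
      fun a ha => htr ⟨1, a⟩ ha⟩
    intro a ha b hb
    change S ⟨1, a⟩ * S ⟨1, b⟩ = (c (uB n a b)) • S ⟨1, a * b⟩
    rw [hSm' ⟨1, a⟩ ⟨1, b⟩ ha hb, hSx (⟨1, a⟩ * ⟨1, b⟩) (N.mul_mem ha hb)]
    have h1 : ((⟨1, a⟩ : Cv A n) * ⟨1, b⟩).z = uB n a b := by simp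
    rw [h1]
    rfl
  · -- the norm
    set g : A → ℂ := fun a => σ ⟨1, a⟩ * σ ⟨1, a⁻¹⟩ *
      ((ZNA_b cc.toHomUnits a a⁻¹ : ℂˣ) : ℂ)⁻¹ with hg
    have h1 : ∑ᶠ x ∈ ((N.comap (prC A n) : Subgroup (Cv A n)) : Set (Cv A n)), g x.a =
        Nat.card (N.comap (prC A n)) := by
      rw [← hnorm]
      refine finsum_mem_congr rfl fun x _ => ?_
      rw [hone, inv_one, mul_one, hσ x, hσ x⁻¹, hg]
      simp only [Cv.inv_z, Cv.inv_a, map_mul, map_inv, Units.val_mul, Units.val_inv_eq_inv_val,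
        ZNA_b]
      have h2 : ((cc.toHomUnits x.z : ℂˣ) : ℂ) ≠ 0 := Units.ne_zero _
      have h3 : ((cc.toHomUnits (uB n x.a x.a⁻¹) : ℂˣ) : ℂ) ≠ 0 := Units.ne_zero _
      field_simp
    rw [ZNA_sum, hcard] at h1
    have h4 : (Nat.card (Zn A n) : ℂ) ≠ 0 := by
      exact_mod_cast (Nat.card_pos (α := Zn A n)).ne'
    change ∑ᶠ a ∈ (N : Set A), g a = Nat.card N
    refine mul_left_cancel₀ h4 ?_
    rw [h1]
    push_cast
    ring

theorem ZNA_inv {A : Type} [Group A] {n : ℕ} (N : Subgroup A) (σ : Cv A n → ℂ)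
    (l : Zn A n →* ℂˣ) (hl : ∀ x : Cv A n, σ x = (l x.z : ℂ) * σ ⟨1, x.a⟩)
    (h : PInv (N.comap (prC A n)) 1 σ) : PInv N (ZNA_b l) (fun a => σ ⟨1, a⟩) := by
  intro q a ha
  have h1 := h ⟨1, q⟩ ⟨1, a⟩ ha
  have h2 : tw (1 : Cv A n → Cv A n → ℂˣ) ⟨1, q⟩ ⟨1, a⟩ = 1 := by simp [tw]
  rw [h2, Units.val_one, one_mul, hl ((⟨1, q⟩ : Cv A n) * ⟨1, a⟩ * (⟨1, q⟩ : Cv A n)⁻¹)] at h1
  have h3 : ((⟨1, q⟩ : Cv A n) * ⟨1, a⟩ * (⟨1, q⟩ : Cv A n)⁻¹).z =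
      uB n q a * (uB n (q * a * q⁻¹) q)⁻¹ := by
    rw [eq_mul_inv_iff_mul_eq]
    have h4 := congrArg Cv.z (inv_mul_cancel_right ((⟨1, q⟩ : Cv A n) * ⟨1, a⟩) ⟨1, q⟩)
    have h4' : ((⟨1, q⟩ : Cv A n) * ⟨1, a⟩ * (⟨1, q⟩ : Cv A n)⁻¹).z * 1 *
        uB n (q * a * q⁻¹) q = ((⟨1, q⟩ : Cv A n) * ⟨1, a⟩).z := h4
    have h5 : ((⟨1, q⟩ : Cv A n) * ⟨1, a⟩).z = uB n q a := by simp
    rw [mul_one, h5] at h4'
    exact h4'
  rw [h3] at h1
  change σ ⟨1, a⟩ = ((tw (ZNA_b l) q a : ℂˣ) : ℂ) * σ ⟨1, q * a * q⁻¹⟩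
  rw [h1]
  have h6 : tw (ZNA_b l) q a = l (uB n q a * (uB n (q * a * q⁻¹) q)⁻¹) := by
    rw [map_mul, map_inv]
    rfl
  rw [h6]
  rfl

theorem ZNA (hZFN : ZFN_stmt) (hKLN : KLN_stmt) (hKSC : KSC_stmt) (hKNC : KNC_stmt) :
    ZNA_stmt := by
  intro A _ _ N hN n hn
  obtain ⟨-, hfZ, hfC, -, -, -, -, hcard, -, -⟩ := hZFN A n hn
  have hnor : N.Normal := hN.nor
  have hnor' : (N.comap (prC A n)).Normal := hnor.comap _
  constructor
  · exact (hKLN (Cv A n) (N.comap (prC A n)) hnor').2.1 (fun _ => True) trivial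
  · intro hcen
    have hhom : Nat.card (Zn A n →* ℂˣ) = Nat.card (Zn A n) :=
      CommGroup.card_monoidHom_of_hasEnoughRootsOfUnity (Zn A n) ℂ
    have hfin : Finite (Zn A n →* ℂˣ) := by
      refine Nat.finite_of_card_ne_zero ?_
      rw [hhom]
      exact (Nat.card_pos (α := Zn A n)).ne'
    rw [← hhom]
    have key : ∀ s : {σ : Cv A n → ℂ // ∃ k, PIrr (N.comap (prC A n)) 1 σ k ∧ True ∧
        PInv (N.comap (prC A n)) 1 σ}, ∃ l : Zn A n →* ℂˣ,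
        (∀ x : Cv A n, s.1 x = (l x.z : ℂ) * s.1 ⟨1, x.a⟩) ∧
        ∃ k, PIrr N (ZNA_b l) (fun a => s.1 ⟨1, a⟩) k ∧
          PInv N (ZNA_b l) (fun a => s.1 ⟨1, a⟩) := by
      rintro ⟨σ, k, h1, -, h2⟩
      obtain ⟨l, hl1, hl2⟩ := ZNA_rep hKSC N (hcard N) σ k h1
      exact ⟨l, hl1, k, hl2, ZNA_inv N σ l hl1 h2⟩
    choose l hl k hk hinv using key
    refine Nat.card_le_card_of_injective l ?_
    intro s t hst
    have h1 := hKNC A N hN hcen (ZNA_b (l s)) (ZNA_coc _) (fun a => s.1 ⟨1, a⟩)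
      (fun a => t.1 ⟨1, a⟩) (k s) (k t) (hk s) (hinv s) (by rw [hst]; exact hk t)
      (by rw [hst]; exact hinv t)
    refine Subtype.ext (funext fun x => ?_)
    rw [hl s x, hl t x, hst]
    have h2 := congrFun h1 x.a
    simp only at h2
    rw [h2]

end Pool.Agent.DR
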